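import Pool.Agent.LeafPaths.Final

/-!
# MP_45fd17_co: distinct leaf-to-leaf path lengths versus degree-sequence radius

Every tree `T` on at least two vertices without a vertex of degree two satisfies
`lp(T) ≥ rad(s)`, where `s` is the degree sequence of `T`.  This proves the statement asked for in
Q1, with the absolute constant `C = 0`.
-/

namespace Pool.Agent.Results.MP_45fd17_co.PathLengthsGeRadius

/-- The degree of the vertex `v` in `T`: its number of neighbours. -/
noncomputable def deg {n : ℕ} (T : SimpleGraph (Fin n)) (v : Fin n) : ℕ :=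
  (T.neighborSet v).ncard

/-- `lp T`: the number of distinct lengths of leaf-to-leaf paths of `T` (the path of length `0`
from a leaf to itself included); a leaf is a vertex of degree at most one. -/
noncomputable def lp {n : ℕ} (T : SimpleGraph (Fin n)) : ℕ :=
  {l : ℕ | ∃ (x y : Fin n) (p : T.Walk x y),
    deg T x ≤ 1 ∧ deg T y ≤ 1 ∧ p.IsPath ∧ p.length = l}.ncard

/-- `rad s`: the smallest radius among all trees whose degree sequence is `s` (up to the order of
the entries). -/
noncomputable def rad {n : ℕ} (s : Fin n → ℕ) : ℕ :=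
  sInf {r : ℕ | ∃ T : SimpleGraph (Fin n), T.IsTree ∧
    (∃ σ : Equiv.Perm (Fin n), ∀ v, deg T v = s (σ v)) ∧ T.radius = (r : ℕ∞)}

/-- Every tree `T` with at least two vertices and no vertex of degree two satisfies
`rad(s) ≤ lp(T)`, where `s` is its degree sequence. -/
theorem result : ∀ n : ℕ, 2 ≤ n → ∀ T : SimpleGraph (Fin n), T.IsTree →
    (∀ v, deg T v ≠ 2) → rad (deg T) ≤ lp T := by
  intro n hn T hT h2
  obtain ⟨T', hT', hσ, c, hc⟩ := Pool.Agent.LeafPaths.main hn hT h2
  have h1 : T'.radius ≤ (lp T : ℕ∞) := by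
    refine (SimpleGraph.radius_le_eccent (u := c)).trans ?_
    rw [SimpleGraph.eccent_le_iff]
    exact hc
  obtain ⟨r, hr⟩ := ENat.ne_top_iff_exists.1 (ne_top_of_le_ne_top (ENat.natCast_ne_top _) h1)
  rw [← hr, Nat.cast_le] at h1
  have h3 : rad (deg T) ≤ r := Nat.sInf_le ⟨T', hT', hσ, hr.symm⟩
  exact h3.trans h1

end Pool.Agent.Results.MP_45fd17_co.PathLengthsGeRadius
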